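import Mathlib
import Pool.Agent.W5h44.BMC.Fin

/-!
# Banach-Mazur rotation problem: one compact perturbation of the identity is enough

Let `E` be a separable real Banach space with a transitive norm.  If there is one isometry `T ≠ 1`
such that `T - 1` is compact, or just a Riesz operator (its class modulo the compact operators is
quasinilpotent; it is well known that this holds if `T - 1` is strictly singular), then `E` is a
Hilbert space.  So if `E` is not a
Hilbert space then the isometries of `E` are different from each other modulo the compact operators,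
and they commute as soon as they commute modulo the compact operators.

No approximation property, no reflexivity and no smoothness of the norm is assumed.

Proof outline (files `Pool/Agent/W5h44/BMC/*`).  Call an operator `a` skew if all `exp (t a)` are
isometries.  Skew operators form a real Lie algebra which is invariant under conjugation by isometries.

1. `Liou`, `Disc`, `Ess`: theorems of Gelfand and Hille (an entire function of exponential type zero
   which is bounded on the real line is constant). In the Calkin algebra they show that an isometry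
   which is a Riesz perturbation of `1` is a compact perturbation of `1`.
2. `Conv`: if `T - 1` is compact and `g n → 1` strongly, then `g n T (g n)⁻¹ → T` in norm: `Q = g n T
   (g n)⁻¹ T⁻¹ - 1` has small square, and `1 + Q` is an isometry. If `E` is separable and its norm is
   transitive, then `g n` can be chosen with `g n T ≠ T g n`: otherwise `T` commutes with the isometries
   near `1` and `T - 1` is bounded below by the starting file `TH596/RO/LaC` (an open subgroup is
   transitive). So there are compact perturbations `S n ≠ 1` with `‖S n - 1‖ → 0`.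
3. `Up2`: the operators `(S n - 1) / ‖S n - 1‖` induce a skew operator `b ≠ 0` with a kernel on the
   ultrapower of `E`, whose norm is transitive.  It need not be compact. But some conjugate of `b`
   does not commute with the compact perturbation `T'` of `1` which is induced by `T` (`Nc`), and
   `T' b T'⁻¹ - b` is a nonzero compact skew operator `a`.
4. `Nc`: there is a conjugate `b` of `a` with `[a, b] ≠ 0`.
5. `Riesz`, `Proj`: for `η > 0` there is a finite-dimensional subspace, invariant under `a`, such that
   `a` has spectral radius at most `η` on the quotient, and it has a complement which is invariant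
   under `a`: average over the group `exp (t a)`; the eigenvalues of `a` are imaginary.
6. `Near`: with the projection `P` onto this subspace, the compression of `ad a ^ k b` to the complement
   is `O((3 η) ^ k)`, while `‖ad a ^ k b‖` decays no faster than some `c ^ k` by 1. So for suitable
   `η` and `k` the skew operator `ad a ^ k b`, normalized, is close to an operator of rank at most
   twice the dimension of `P`; and its exponentials are isometries which are close to perturbations of
   `1` of bounded rank.
7. For these the file `Pool/Agent/W5h45/BM/Ultra` (almost transitive norms with isometries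
   which are nearly perturbations of `1` of bounded rank) applies.
-/

set_option autoImplicit false

namespace Pool.Agent.Results.MP_cc72b1_an.CompactPerturbation

/-- `E` is isometric to a real Hilbert space. -/
def IsHilbert (E : Type) [NormedAddCommGroup E] [NormedSpace ℝ E] : Prop :=
  ∃ (H : Type) (_ : NormedAddCommGroup H) (_ : InnerProductSpace ℝ H) (_ : CompleteSpace H),
    Nonempty (E ≃ₗᵢ[ℝ] H)

/-- The surjective linear isometries act transitively on the unit sphere. -/
def Transitive (E : Type) [NormedAddCommGroup E] [NormedSpace ℝ E] : Prop :=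
  ∀ x y : E, ‖x‖ = 1 → ‖y‖ = 1 → ∃ T : E ≃ₗᵢ[ℝ] E, T x = y

/-- A surjective linear isometry as a bounded operator. -/
noncomputable def op {E : Type} [NormedAddCommGroup E] [NormedSpace ℝ E] (T : E ≃ₗᵢ[ℝ] E) : E →L[ℝ] E :=
  (T.toContinuousLinearEquiv : E →L[ℝ] E)

/-- `N` is quasinilpotent modulo the compact operators (a Riesz operator): for every `ε > 0` there are
`n ≥ 1` and a compact operator `K` with `‖N ^ n - K‖ ≤ ε ^ n`.  Compact operators have this property. -/
def IsRiesz {E : Type} [NormedAddCommGroup E] [NormedSpace ℝ E] (N : E →L[ℝ] E) : Prop :=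
  ∀ ε : ℝ, 0 < ε → ∃ n : ℕ, 0 < n ∧ ∃ K : E →L[ℝ] E, IsCompactOperator K ∧ ‖N ^ n - K‖ ≤ ε ^ n

/-- There is an isometry `T ≠ 1` such that `T - 1` is compact. -/
def HasCompactPerturbation (E : Type) [NormedAddCommGroup E] [NormedSpace ℝ E] : Prop :=
  ∃ T : E ≃ₗᵢ[ℝ] E, T ≠ 1 ∧ IsCompactOperator (op T - 1 : E →L[ℝ] E)

/-- There is an isometry `T ≠ 1` such that `T - 1` is a Riesz operator. -/
def HasRieszPerturbation (E : Type) [NormedAddCommGroup E] [NormedSpace ℝ E] : Prop :=
  ∃ T : E ≃ₗᵢ[ℝ] E, T ≠ 1 ∧ IsRiesz (op T - 1)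

/-- There are two isometries which do not commute but commute modulo the compact operators. -/
def HasCompactCommutator (E : Type) [NormedAddCommGroup E] [NormedSpace ℝ E] : Prop :=
  ∃ S T : E ≃ₗᵢ[ℝ] E, S * T ≠ T * S ∧ IsCompactOperator (op (S * T) - op (T * S) : E →L[ℝ] E)

section aux

variable {E : Type} [NormedAddCommGroup E] [NormedSpace ℝ E]

open Pool.Agent.W5h44.BMC

private theorem hilbert_of_par [CompleteSpace E]
    (h : ∀ x y : E, ‖x + y‖ ^ 2 + ‖x - y‖ ^ 2 = 2 * ‖x‖ ^ 2 + 2 * ‖y‖ ^ 2) : IsHilbert E := by
  have key : ∀ x y : E,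
      ‖x + y‖ * ‖x + y‖ + ‖x - y‖ * ‖x - y‖ = 2 * (‖x‖ * ‖x‖ + ‖y‖ * ‖y‖) := by
    intro x y
    nlinarith [h x y]
  exact ⟨E, inferInstance, InnerProductSpace.ofNorm ℝ key, inferInstance,
    ⟨LinearIsometryEquiv.refl ℝ E⟩⟩

private theorem dif_ne {T : E ≃ₗᵢ[ℝ] E} (hT : T ≠ 1) : dif T ≠ 0 := by
  intro h
  apply hT
  ext x
  exact sub_eq_zero.1 (congrArg (fun u : E →L[ℝ] E => u x) h)

private theorem ne_of_dif {T : E ≃ₗᵢ[ℝ] E} (hT : dif T ≠ 0) : T ≠ 1 := by
  rintro rfl
  apply hT
  ext x
  exact sub_self x

private theorem transitive_of_hilbert (h : IsHilbert E) : Transitive E := by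
  obtain ⟨H, i1, i2, i3, ⟨Φ⟩⟩ := h
  intro x y hx hy
  have h : ‖Φ x‖ = ‖Φ y‖ := by rw [Φ.norm_map, Φ.norm_map, hx, hy]
  refine ⟨(Φ.trans ((Submodule.span ℝ {Φ x - Φ y})ᗮ : Submodule ℝ H).reflection).trans Φ.symm, ?_⟩
  show Φ.symm (((Submodule.span ℝ {Φ x - Φ y})ᗮ : Submodule ℝ H).reflection (Φ x)) = y
  rw [Submodule.reflection_sub h, Φ.symm_apply_apply]

private theorem reflection_of_hilbert (h : IsHilbert E) (u : E) :
    ∃ T : E ≃ₗᵢ[ℝ] E, T u = -u ∧ ∀ x, T x - x ∈ Submodule.span ℝ ({u} : Set E) := by
  obtain ⟨H, i1, i2, i3, ⟨Φ⟩⟩ := h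
  set K : Submodule ℝ H := Submodule.span ℝ {Φ u} with hK
  refine ⟨(Φ.trans (Kᗮ : Submodule ℝ H).reflection).trans Φ.symm, ?_, fun x => ?_⟩
  · show Φ.symm ((Kᗮ : Submodule ℝ H).reflection (Φ u)) = -u
    have h1 : (Kᗮ : Submodule ℝ H).reflection (Φ u) = - Φ u :=
      Submodule.reflection_orthogonalComplement_singleton_eq_neg (Φ u)
    rw [h1, map_neg, Φ.symm_apply_apply]
  · show Φ.symm ((Kᗮ : Submodule ℝ H).reflection (Φ x)) - x ∈ _
    have h1 : (Kᗮ : Submodule ℝ H).reflection (Φ x) - Φ x ∈ K := by
      rw [Submodule.reflection_orthogonal_apply, Submodule.reflection_apply]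
      have h2 : (K.starProjection (Φ x)) ∈ K := Submodule.starProjection_apply_mem _ _
      have h3 : -((2 : ℕ) • K.starProjection (Φ x) - Φ x) - Φ x
          = (-2 : ℝ) • K.starProjection (Φ x) := by
        rw [two_smul, neg_smul, two_smul]
        abel
      rw [h3]
      exact K.smul_mem _ h2
    obtain ⟨c, hc⟩ := Submodule.mem_span_singleton.1 h1
    rw [Submodule.mem_span_singleton]
    refine ⟨c, ?_⟩
    apply Φ.injective
    rw [map_smul, hc, map_sub, Φ.apply_symm_apply]

private theorem compact_of_reflection {T : E ≃ₗᵢ[ℝ] E} {u : E}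
    (h : ∀ x, T x - x ∈ Submodule.span ℝ ({u} : Set E)) : IsCompactOperator (op T - 1 : E →L[ℝ] E) :=
  compact_of_fd _ _ h

end aux

/-- **One compact perturbation of the identity is enough.**  Let `E` be a separable real Banach space of
dimension at least two (a space of dimension one is a Hilbert space).  The following are equivalent:
`E` is isometric to a Hilbert space; the norm of `E` is transitive and one isometry `T ≠ 1` is a compact
perturbation of `1`; the norm is transitive and one isometry `T ≠ 1` is a Riesz perturbation of `1`;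
the norm is transitive and two isometries which do not commute commute modulo the compact operators. -/
theorem result (E : Type) [NormedAddCommGroup E] [NormedSpace ℝ E] [CompleteSpace E]
    [TopologicalSpace.SeparableSpace E] (hrk : 1 < Module.rank ℝ E) :
    List.TFAE [IsHilbert E,
      Transitive E ∧ HasCompactPerturbation E,
      Transitive E ∧ HasRieszPerturbation E,
      Transitive E ∧ HasCompactCommutator E] := by
  open Pool.Agent.W5h44.BMC in
  haveI : Nontrivial E := rank_pos_iff_nontrivial.1 (lt_trans zero_lt_one hrk)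
  tfae_have 1 → 2 := by
    intro h
    refine ⟨transitive_of_hilbert h, ?_⟩
    obtain ⟨u, hu⟩ := exists_ne (0 : E)
    obtain ⟨T, hT1, hT2⟩ := reflection_of_hilbert h u
    refine ⟨T, ?_, compact_of_reflection hT2⟩
    rintro rfl
    have h1 : u = -u := hT1
    have h2 : (2 : ℝ) • u = 0 := by
      rw [two_smul]
      nth_rewrite 2 [h1]
      exact add_neg_cancel u
    exact hu ((smul_eq_zero.1 h2).resolve_left (by norm_num))
  tfae_have 2 → 3 := by
    rintro ⟨h1, T, hT1, hT2⟩
    exact ⟨h1, T, hT1, essQN_of_compact hT2⟩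
  tfae_have 3 → 1 := by
    rintro ⟨h1, T, hT1, hT2⟩
    exact hilbert_of_par (par_sep h1 T (dif_ne hT1) hT2)
  tfae_have 1 → 4 := by
    intro h
    refine ⟨transitive_of_hilbert h, ?_⟩
    obtain ⟨x, hx⟩ := exists_ne (0 : E)
    obtain ⟨y, hxy⟩ := exists_linearIndependent_pair_of_one_lt_rank hrk hx
    rw [LinearIndependent.pair_iff] at hxy
    have hy : y ≠ 0 := by
      rintro rfl
      exact one_ne_zero (hxy 0 1 (by simp)).2
    obtain ⟨T, hT1, hT2⟩ := reflection_of_hilbert h x
    obtain ⟨S, hS⟩ := transitive_of_hilbert h ((‖x‖⁻¹ : ℝ) • x) ((‖y‖⁻¹ : ℝ) • y)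
      (norm_smul_inv_norm (𝕜 := ℝ) hx) (norm_smul_inv_norm (𝕜 := ℝ) hy)
    refine ⟨S, T, fun hST => ?_, ?_⟩
    · have h1 : S (T x) = T (S x) := congrArg (fun u : E ≃ₗᵢ[ℝ] E => u x) hST
      have h2 := hT2 (S x)
      rw [← h1, hT1, map_neg] at h2
      obtain ⟨c, hc⟩ := Submodule.mem_span_singleton.1 h2
      have hx' : ‖x‖ ≠ 0 := norm_ne_zero_iff.2 hx
      have hy' : ‖y‖ ≠ 0 := norm_ne_zero_iff.2 hy
      have h3 : S x = (‖x‖ * ‖y‖⁻¹) • y := by
        rw [map_smul] at hS
        rw [mul_smul, ← hS, smul_smul, mul_inv_cancel₀ hx', one_smul]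
      have h4 := hxy c (2 * (‖x‖ * ‖y‖⁻¹)) (by
        rw [mul_smul, ← h3, hc, two_smul]
        abel)
      have h5 : (0 : ℝ) < 2 * (‖x‖ * ‖y‖⁻¹) := by positivity
      linarith [h4.2]
    · have h1 : IsCompactOperator (op T - 1 : E →L[ℝ] E) := compact_of_reflection hT2
      have e : op (S * T) - op (T * S) = op S * (op T - 1) - (op T - 1) * op S := by
        ext z
        show S (T z) - T (S z) = S (T z - z) - (T (S z) - S z)
        rw [map_sub]
        abel
      rw [e]
      exact IsCompactOperator.sub (h1.clm_comp (op S)) (h1.comp_clm (op S))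
  tfae_have 4 → 1 := by
    intro h
    obtain ⟨h1, S, T, hST, hc⟩ := h
    have hne : S * T * S⁻¹ * T⁻¹ ≠ 1 := by
      intro h2
      apply hST
      rw [mul_inv_eq_one, mul_inv_eq_iff_eq_mul] at h2
      exact h2
    have hR : IsCompactOperator (op (S * T * S⁻¹ * T⁻¹) - 1 : E →L[ℝ] E) := by
      have e : op (S * T * S⁻¹ * T⁻¹) - 1 = (op (S * T) - op (T * S)) * op (S⁻¹ * T⁻¹) := by
        ext z
        show S (T (S.symm (T.symm z))) - z = S (T (S.symm (T.symm z))) - T (S (S.symm (T.symm z)))
        rw [S.apply_symm_apply, T.apply_symm_apply]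
      rw [e]
      exact hc.comp_clm (op (S⁻¹ * T⁻¹))
    exact hilbert_of_par (par_sep h1 _ (dif_ne hne) (essQN_of_compact hR))
  tfae_finish

end Pool.Agent.Results.MP_cc72b1_an.CompactPerturbation
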