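import Mathlib
import Pool.Agent.W5h45.BM.Ultra

/-!
# Banach-Mazur rotation problem: one finite rank perturbation of the identity is enough

Let `E ≠ 0` be a real Banach space (of any density) with an almost transitive norm.  If there is one
isometry `T ≠ 1` such that `T - 1` has finite rank, then `E` is a Hilbert space.  More generally it is
enough that for some `k` and `δ > 0` there are isometries `T` with `‖T - 1‖ ≥ δ` for which `T - 1` is
arbitrarily close to operators with values in a `k`-dimensional subspace.

(If the isometries `T` with `T - 1` of finite rank act transitively on the sphere, this is a theorem of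
Cabello Sánchez; for one isometry with `T - 1` of rank one it is due to Skorik and Zaidenberg.)

Proof outline (files `Pool/Agent/W5h45/BM/*`).

1. `Haar.lean`: a finite-dimensional normed space `V` has an inner product which is invariant under the
   linear isometries of `V` (integrate `f(x) f(y)` over the dual ball).
2. `Adj.lean`: `Adj a a'` says that `a`, `a'` have finite rank and are adjoint to each other for all
   these inner products on all large finite-dimensional subspaces `V` of `E`.  The operators `a` with
   an adjoint form a `*`-algebra `A` of finite rank operators, which is invariant under conjugation by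
   isometries of `E`, and positive: `a* a = 0` implies `a = 0`.  It contains `T - 1`.
3. `Min.lean`: a nonzero self-adjoint element of minimal rank is a multiple of a projection `e`, and
   `e a* a e` is a multiple of `e`.  If the norm is transitive, every nonzero vector `z` is in the
   range of exactly one minimal projection.  Two minimal projections `e`, `f` satisfy `e A f ≠ 0`:
   otherwise the minimal projection which fixes the sum of a vector in the range of `e` and of a vector
   in the range of `f` would be equal to `e` and to `f`.  So all vectors are of the form `v w` with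
   `v` in `A` and `w` in the range of `e`.
4. `Form.lean`: the invariant inner products on the finite-dimensional subspaces, normalized on the
   range of `e`, converge along an ultrafilter to a form `b` on `E` with `b (a x) y = b x (a* y)`; it is
   partially continuous since the elements of `A` have finite rank, hence bounded.
5. `Exact.lean`: the bounded forms with this property are an invariant space, and at a vector in the
   range of `e` they take values in a finite-dimensional space of functionals. By the starting file
   `TH596/RO/Forms` the norm is Hilbertian.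
6. `Ultra.lean`: the ultrapower of a space with an almost transitive norm has a transitive norm.
-/

set_option autoImplicit false
set_option linter.unusedVariables false

namespace Pool.Agent.Results.MP_cc72b1_an.FiniteRankPerturbation

/-- `E` is isometric to a real Hilbert space. -/
def IsHilbert (E : Type) [NormedAddCommGroup E] [NormedSpace ℝ E] : Prop :=
  ∃ (H : Type) (_ : NormedAddCommGroup H) (_ : InnerProductSpace ℝ H) (_ : CompleteSpace H),
    Nonempty (E ≃ₗᵢ[ℝ] H)

/-- The surjective linear isometries act transitively on the unit sphere. -/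
def Transitive (E : Type) [NormedAddCommGroup E] [NormedSpace ℝ E] : Prop :=
  ∀ x y : E, ‖x‖ = 1 → ‖y‖ = 1 → ∃ T : E ≃ₗᵢ[ℝ] E, T x = y

/-- The orbits of the surjective linear isometries are dense in the unit sphere. -/
def AlmostTransitive (E : Type) [NormedAddCommGroup E] [NormedSpace ℝ E] : Prop :=
  ∀ x y : E, ‖x‖ = 1 → ‖y‖ = 1 → ∀ ε : ℝ, 0 < ε → ∃ T : E ≃ₗᵢ[ℝ] E, ‖T x - y‖ < ε

/-- There is a surjective linear isometry `T ≠ 1` such that `T - 1` has finite rank. -/
def HasFiniteRankPerturbation (E : Type) [NormedAddCommGroup E] [NormedSpace ℝ E] : Prop :=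
  ∃ T : E ≃ₗᵢ[ℝ] E, (∃ x, T x ≠ x) ∧
    ∃ V : Submodule ℝ E, FiniteDimensional ℝ V ∧ ∀ x, T x - x ∈ V

/-- For some `k` and `δ > 0` and every `ε > 0` there is a surjective linear isometry `T` with
`‖T - 1‖ ≥ δ` and a subspace `V` of dimension at most `k` such that the distance of `T z - z` from `V`
is at most `ε ‖z‖` for all `z`. -/
def HasNearlyFiniteRankPerturbations (E : Type) [NormedAddCommGroup E] [NormedSpace ℝ E] : Prop :=
  ∃ (k : ℕ) (δ : ℝ), 0 < δ ∧ ∀ ε : ℝ, 0 < ε → ∃ (T : E ≃ₗᵢ[ℝ] E) (V : Submodule ℝ E),
    FiniteDimensional ℝ V ∧ Module.finrank ℝ V ≤ k ∧ (∃ z, ‖z‖ ≤ 1 ∧ δ ≤ ‖T z - z‖) ∧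
    ∀ z, ∃ v ∈ V, ‖T z - z - v‖ ≤ ε * ‖z‖

/-- **A real Banach space `E ≠ 0` is a Hilbert space if and only if its norm is transitive, or just
almost transitive, and it has an isometry `T ≠ 1` with `T - 1` of finite rank, or isometries
which are arbitrarily close to such perturbations of the identity, of bounded rank.** -/
theorem result (E : Type) [NormedAddCommGroup E] [NormedSpace ℝ E] [CompleteSpace E]
    [Nontrivial E] :
    List.TFAE [IsHilbert E,
      Transitive E ∧ HasFiniteRankPerturbation E,
      AlmostTransitive E ∧ HasNearlyFiniteRankPerturbations E] := by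
  tfae_have 1 → 2 := by
    rintro ⟨H, i1, i2, i3, ⟨Φ⟩⟩
    refine ⟨fun x y hx hy => ?_, ?_⟩
    · have h : ‖Φ x‖ = ‖Φ y‖ := by rw [Φ.norm_map, Φ.norm_map, hx, hy]
      refine ⟨(Φ.trans ((Submodule.span ℝ {Φ x - Φ y})ᗮ : Submodule ℝ H).reflection).trans Φ.symm, ?_⟩
      show Φ.symm (((Submodule.span ℝ {Φ x - Φ y})ᗮ : Submodule ℝ H).reflection (Φ x)) = y
      rw [Submodule.reflection_sub h, Φ.symm_apply_apply]
    · obtain ⟨u, hu⟩ := exists_ne (0 : E)
      set K : Submodule ℝ H := Submodule.span ℝ {Φ u} with hK
      refine ⟨(Φ.trans (Kᗮ : Submodule ℝ H).reflection).trans Φ.symm, ⟨u, ?_⟩,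
        Submodule.span ℝ {u}, inferInstance, fun x => ?_⟩
      · show Φ.symm ((Kᗮ : Submodule ℝ H).reflection (Φ u)) ≠ u
        have h1 : (Kᗮ : Submodule ℝ H).reflection (Φ u) = - Φ u :=
          Submodule.reflection_orthogonalComplement_singleton_eq_neg (Φ u)
        rw [h1, map_neg, Φ.symm_apply_apply]
        intro h2
        apply hu
        have h3 : u + u = 0 := by
          nth_rewrite 1 [← h2]
          exact neg_add_cancel u
        have h4 : (2 : ℝ) • u = 0 := by rw [two_smul]; exact h3
        exact (smul_eq_zero.1 h4).resolve_left (by norm_num)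
      · show Φ.symm ((Kᗮ : Submodule ℝ H).reflection (Φ x)) - x ∈ _
        have h1 : (Kᗮ : Submodule ℝ H).reflection (Φ x) - Φ x ∈ K := by
          rw [Submodule.reflection_orthogonal_apply, Submodule.reflection_apply]
          have h2 : (K.starProjection (Φ x)) ∈ K := Submodule.starProjection_apply_mem _ _
          have h3 : -((2 : ℕ) • K.starProjection (Φ x) - Φ x) - Φ x
              = (-2 : ℝ) • K.starProjection (Φ x) := by
            rw [two_smul, neg_smul, two_smul]
            abel
          rw [h3]
          exact K.smul_mem _ h2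
        obtain ⟨c, hc⟩ := Submodule.mem_span_singleton.1 h1
        rw [Submodule.mem_span_singleton]
        refine ⟨c, ?_⟩
        apply Φ.injective
        rw [map_smul, hc, map_sub, Φ.apply_symm_apply]
  tfae_have 2 → 3 := by
    rintro ⟨htr, T, ⟨x, hx⟩, V, hV, hTV⟩
    refine ⟨fun x y hx hy ε hε => ?_, ?_⟩
    · obtain ⟨S, hS⟩ := htr x y hx hy
      exact ⟨S, by rw [hS, sub_self, norm_zero]; exact hε⟩
    · have hx0 : x ≠ 0 := fun h0 => hx (by rw [h0, map_zero])
      refine ⟨Module.finrank ℝ V, ‖T ((‖x‖⁻¹ : ℝ) • x) - (‖x‖⁻¹ : ℝ) • x‖, ?_, fun ε hε =>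
        ⟨T, V, hV, le_rfl, ⟨(‖x‖⁻¹ : ℝ) • x, (norm_smul_inv_norm (𝕜 := ℝ) hx0).le, le_rfl⟩,
          fun z => ⟨T z - z, hTV z, ?_⟩⟩⟩
      · rw [norm_pos_iff, sub_ne_zero, map_smul]
        intro h1
        exact hx (smul_right_injective E (inv_ne_zero (norm_ne_zero_iff.2 hx0)) h1)
      · rw [sub_self, norm_zero]
        positivity
  tfae_have 3 → 1 := by
    rintro ⟨htr, k, δ, hδ, h⟩
    have hpar := Pool.Agent.W5h45.BM.par_almost htr k δ hδ h
    have key : ∀ x y : E,
        ‖x + y‖ * ‖x + y‖ + ‖x - y‖ * ‖x - y‖ = 2 * (‖x‖ * ‖x‖ + ‖y‖ * ‖y‖) := by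
      intro x y
      have h := hpar x y
      nlinarith [h]
    exact ⟨E, inferInstance, InnerProductSpace.ofNorm ℝ key, inferInstance,
      ⟨LinearIsometryEquiv.refl ℝ E⟩⟩
  tfae_finish

end Pool.Agent.Results.MP_cc72b1_an.FiniteRankPerturbation
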