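import Pool.Agent.W39.Proj.Erg

/-!
# Banach-Mazur rotation problem: one proper 1-complemented subspace of finite codimension

Let `E` be a separable infinite-dimensional Banach space which is isomorphic to a Hilbert space and
whose isometries act transitively on the unit sphere. If some linear contraction `T ≠ 1` (not an
isometry in general) is a finite rank perturbation of the identity, equivalently, if some proper
closed subspace of finite codimension is the range of a norm-one projection, then `E` is isometric
to a Hilbert space. More generally it is enough that the images of the range `Y` of some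
norm-one projection `P ≠ 1` under any finitely many isometries have a common nonzero vector.

Proof. The mean ergodic projection of `T` is a norm-one projection with a finite-dimensional kernel.
At each point `x` of the sphere the squared norm has a second order expansion with a bounded
positive definite form `A_x`, and `A_{Ux}(Uv, Uw) = A_x(v, w)` for the isometries `U`
(`HilbertianHessian`, starting files). If `x` belongs to the range of a norm-one projection `Q`, then
`A_x (Q v, Q v) ≤ A_x (v, v)`, so `Q` is an orthogonal projection for `A_x`. For each finite set `S` of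
isometries choose a unit vector `x_S` in the intersection of the `g Y`, `g ∈ S`. The limit of the forms
`A_{x_S}` along an ultrafilter is an inner product which defines the topology, and `g Y`, `g (ker P)`
are orthogonal with respect to it for ALL isometries `g`. So the hypothesis of `OrthogonalSplitting`
(starting files) holds, and `E` is isometric to a Hilbert space.
-/

set_option autoImplicit false

namespace Pool.Agent.Results.MP_cc72b1_an.OneComplementedSubspace

open Pool.Agent.W39.Proj
open scoped InnerProductSpace

section defs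

variable (E : Type) [NormedAddCommGroup E] [NormedSpace ℝ E]

/-- `E` is linearly isometric to a real Hilbert space. -/
def IsHilbert : Prop :=
  ∃ (K : Type) (_ : NormedAddCommGroup K) (_ : InnerProductSpace ℝ K) (_ : CompleteSpace K),
    Nonempty (E ≃ₗᵢ[ℝ] K)

/-- `E` is linearly homeomorphic to a real Hilbert space. -/
def IsHilbertian : Prop :=
  ∃ (K : Type) (_ : NormedAddCommGroup K) (_ : InnerProductSpace ℝ K) (_ : CompleteSpace K),
    Nonempty (E ≃L[ℝ] K)

/-- The isometry group acts transitively on the unit sphere. -/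
def Transitive : Prop := ∀ x y : E, ‖x‖ = 1 → ‖y‖ = 1 → ∃ T : E ≃ₗᵢ[ℝ] E, T x = y

/-- There is a projection `P ≠ 1` of norm at most one with finite-dimensional kernel (its range is a
proper closed 1-complemented subspace of finite codimension). -/
def HasFiniteCorankProjection : Prop :=
  ∃ P : E →L[ℝ] E, P ≠ 1 ∧ (∀ x, P (P x) = P x) ∧ ‖P‖ ≤ 1 ∧
    FiniteDimensional ℝ (LinearMap.ker (P : E →ₗ[ℝ] E))

/-- There is a linear contraction `T ≠ 1` with `T - 1` of finite rank. -/
def HasContraction : Prop :=
  ∃ T : E →L[ℝ] E, T ≠ 1 ∧ ‖T‖ ≤ 1 ∧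
    FiniteDimensional ℝ (LinearMap.range ((T - 1 : E →L[ℝ] E) : E →ₗ[ℝ] E))

/-- There is a projection `P ≠ 1` of norm at most one such that for any finitely many isometries `g`
the subspaces `g (P E)` have a common nonzero vector. -/
def HasMeetingProjection : Prop :=
  ∃ P : E →L[ℝ] E, P ≠ 1 ∧ (∀ x, P (P x) = P x) ∧ ‖P‖ ≤ 1 ∧
    ∀ S : Finset (E ≃ₗᵢ[ℝ] E), ∃ x : E, x ≠ 0 ∧ ∀ g ∈ S, ∃ y, P y = y ∧ g y = x

end defs

variable {E : Type} [NormedAddCommGroup E] [NormedSpace ℝ E]

lemma le_norm {T : E →L[ℝ] E} (hT : ‖T‖ ≤ 1) (x : E) : ‖T x‖ ≤ ‖x‖ := by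
  have h1 := T.le_opNorm x
  have h2 : ‖T‖ * ‖x‖ ≤ 1 * ‖x‖ := by gcongr
  linarith

theorem hilb_transitive {K : Type} [NormedAddCommGroup K] [InnerProductSpace ℝ K]
    (e : E ≃ₗᵢ[ℝ] K) : Transitive E := by
  intro x y hx hy
  have h1 : ‖e x‖ = ‖e y‖ := by rw [e.norm_map, e.norm_map, hx, hy]
  refine ⟨e.trans (((ℝ ∙ (e x - e y))ᗮ.reflection).trans e.symm), ?_⟩
  show e.symm ((ℝ ∙ (e x - e y))ᗮ.reflection (e x)) = y
  rw [Submodule.reflection_sub h1, e.symm_apply_apply]

theorem hilb_proj {K : Type} [NormedAddCommGroup K] [InnerProductSpace ℝ K]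
    (hE : ¬ FiniteDimensional ℝ E) (e : E ≃ₗᵢ[ℝ] K) : HasFiniteCorankProjection E := by
  obtain ⟨z, hz⟩ : ∃ z : E, z ≠ 0 := by
    by_contra hcon
    push Not at hcon
    haveI : Subsingleton E := ⟨fun a b => by rw [hcon a, hcon b]⟩
    exact hE inferInstance
  set U : Submodule ℝ K := ℝ ∙ (e z) with hU
  have hez : e z ≠ 0 := fun h => hz (by
    have := congrArg e.symm h
    simpa using this)
  let P : E →L[ℝ] E := (e.symm.toContinuousLinearEquiv : K →L[ℝ] E) ∘L Uᗮ.starProjection ∘L
    (e.toContinuousLinearEquiv : E →L[ℝ] K)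
  have hP : ∀ x, P x = e.symm (Uᗮ.starProjection (e x)) := fun x => rfl
  have hPz : P z = 0 := by
    have h1 : Uᗮ.starProjection (e z) = 0 :=
      Submodule.starProjection_orthogonalComplement_singleton_eq_zero (e z)
    rw [hP, h1, map_zero]
  refine ⟨P, fun h => ?_, fun x => ?_, ?_, ?_⟩
  · rw [h] at hPz
    exact hz hPz
  · rw [hP, hP, e.apply_symm_apply]
    congr 1
    exact congrArg (fun L : K →L[ℝ] K => L (e x)) (Uᗮ.isIdempotentElem_starProjection)
  · refine ContinuousLinearMap.opNorm_le_bound _ zero_le_one fun x => ?_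
    rw [hP, e.symm.norm_map, one_mul]
    refine (le_norm (Submodule.starProjection_norm_le _) _).trans ?_
    rw [e.norm_map]
  · have h1 : LinearMap.ker (P : E →ₗ[ℝ] E) ≤ ℝ ∙ z := by
      intro x hx
      have h2 : e.symm (Uᗮ.starProjection (e x)) = 0 := hx
      have h3 : Uᗮ.starProjection (e x) = 0 := by
        have := congrArg e h2
        simpa using this
      have h4 : e x ∈ U := by
        rw [Submodule.starProjection_orthogonal'] at h3
        have h5 : e x - U.starProjection (e x) = 0 := h3
        rw [sub_eq_zero.1 h5]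
        exact Submodule.starProjection_apply_mem _ _
      rw [hU, Submodule.mem_span_singleton] at h4
      obtain ⟨a, ha⟩ := h4
      rw [Submodule.mem_span_singleton]
      exact ⟨a, e.injective (by rw [map_smul]; exact ha)⟩
    exact Submodule.finiteDimensional_of_le h1

/-- For a separable infinite-dimensional real Banach space the following are equivalent:
(1) it is isometric to a Hilbert space; it is isomorphic to a Hilbert space, the norm is transitive
and (2) there is a norm-one projection `P ≠ 1` with finite-dimensional kernel; (3) there is a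
contraction `T ≠ 1` with `T - 1` of finite rank; (4) there is a norm-one projection `P ≠ 1` such that
finitely many images of its range under isometries always have a common nonzero vector. -/
theorem result :
    ∀ (E : Type) [NormedAddCommGroup E] [NormedSpace ℝ E] [CompleteSpace E]
      [TopologicalSpace.SeparableSpace E], ¬ FiniteDimensional ℝ E →
      [IsHilbert E,
        IsHilbertian E ∧ Transitive E ∧ HasFiniteCorankProjection E,
        IsHilbertian E ∧ Transitive E ∧ HasContraction E,
        IsHilbertian E ∧ Transitive E ∧ HasMeetingProjection E].TFAE := by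
  intro E _ _ _ _ hE
  tfae_have 1 → 2 := by
    rintro ⟨K, i1, i2, i3, ⟨e⟩⟩
    exact ⟨⟨K, i1, i2, i3, ⟨e.toContinuousLinearEquiv⟩⟩, hilb_transitive e, hilb_proj hE e⟩
  tfae_have 2 → 3 := by
    rintro ⟨h1, h2, P, hP1, hP2, hPn, hPk⟩
    refine ⟨h1, h2, P, hP1, hPn, ?_⟩
    refine Submodule.finiteDimensional_of_le (S₂ := LinearMap.ker (P : E →ₗ[ℝ] E)) ?_
    rintro _ ⟨x, rfl⟩
    rw [LinearMap.mem_ker]
    show P (P x - x) = 0
    rw [map_sub, hP2, sub_self]
  tfae_have 3 → 4 := by
    rintro ⟨h1, h2, T, hT1, hTn, hTr⟩
    obtain ⟨P, hP2, hPn, hTP, hPT, hPr⟩ := ergodic (le_norm hTn) hTr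
    refine ⟨h1, h2, P, fun h => hT1 ?_, hP2,
      ContinuousLinearMap.opNorm_le_bound _ zero_le_one fun x => by
        rw [one_mul]; exact hPn x, fun S => ?_⟩
    · ext x
      have h3 := hTP x
      rw [h] at h3
      exact h3
    · classical
      obtain ⟨x, hx0, hx⟩ := finite_inter hE (P - 1) hPr (S.image LinearIsometryEquiv.symm)
      refine ⟨x, hx0, fun g hg => ⟨g.symm x, ?_, g.apply_symm_apply x⟩⟩
      have h3 := hx g.symm (Finset.mem_image_of_mem _ hg)
      exact sub_eq_zero.1 h3
  tfae_have 4 → 1 := by
    rintro ⟨⟨K, i1, i2, i3, ⟨Φ⟩⟩, h2, P, hP1, hP2, hPn, hPS⟩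
    refine proj_case Φ hE h2 P hP2 (le_norm hPn) hP1 fun S => ?_
    classical
    obtain ⟨x, hx0, hx⟩ := hPS (S.image LinearIsometryEquiv.symm)
    refine ⟨x, hx0, fun g hg => ?_⟩
    obtain ⟨y, hy1, hy2⟩ := hx g.symm (Finset.mem_image_of_mem _ hg)
    have h3 : g x = y := by rw [← hy2, g.apply_symm_apply]
    rw [h3, hy1]
  tfae_finish

end Pool.Agent.Results.MP_cc72b1_an.OneComplementedSubspace
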