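import Mathlib
import Pool.Agent.W5h44.BMC.Fin

/-!
# Banach-Mazur rotation problem: almost transitive norms with small compact perturbations of the identity

Let `E` be a real Banach space with an almost transitive norm, of any density.  If there are isometries
`T ≠ 1` with `‖T - 1‖` arbitrarily small such that `T - 1` is compact, or just a Riesz operator (its
class modulo the compact operators is quasinilpotent), then `E` is a
Hilbert space.  In particular this holds if there is a compact operator `A ≠ 0` such that `exp (t A)`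
is an isometry for all real `t`.

No approximation property, no reflexivity and no smoothness of the norm is assumed.

Proof outline (files `Pool/Agent/W5h44/BMC/*`).  Call an operator `a` skew if all `exp (t a)` are
isometries.  Skew operators form a real Lie algebra which is invariant under conjugation by isometries.

1. `Liou`, `Disc`, `Ess`: theorems of Gelfand and Hille (an entire function of exponential type zero
   which is bounded on the real line is constant). In the Calkin algebra they show that an isometry
   which is a Riesz perturbation of `1` is a compact perturbation of `1`.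
2. `Conv`: if `T - 1` is compact and `g n → 1` strongly, then `g n T (g n)⁻¹ → T` in norm: `Q = g n T
   (g n)⁻¹ T⁻¹ - 1` has small square, and `1 + Q` is an isometry. If `E` is separable and its norm is
   transitive, then `g n` can be chosen with `g n T ≠ T g n`: otherwise `T` commutes with the isometries
   near `1` and `T - 1` is bounded below by the starting file `TH596/RO/LaC` (an open subgroup is
   transitive). So there are compact perturbations `S n ≠ 1` with `‖S n - 1‖ → 0`.
3. `Up2`: the operators `(S n - 1) / ‖S n - 1‖` induce a skew operator `b ≠ 0` with a kernel on the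
   ultrapower of `E`, whose norm is transitive.  It need not be compact. But some conjugate of `b`
   does not commute with the compact perturbation `T'` of `1` which is induced by `T` (`Nc`), and
   `T' b T'⁻¹ - b` is a nonzero compact skew operator `a`.
4. `Nc`: there is a conjugate `b` of `a` with `[a, b] ≠ 0`.
5. `Riesz`, `Proj`: for `η > 0` there is a finite-dimensional subspace, invariant under `a`, such that
   `a` has spectral radius at most `η` on the quotient, and it has a complement which is invariant
   under `a`: average over the group `exp (t a)`; the eigenvalues of `a` are imaginary.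
6. `Near`: with the projection `P` onto this subspace, the compression of `ad a ^ k b` to the complement
   is `O((3 η) ^ k)`, while `‖ad a ^ k b‖` decays no faster than some `c ^ k` by 1. So for suitable
   `η` and `k` the skew operator `ad a ^ k b`, normalized, is close to an operator of rank at most
   twice the dimension of `P`; and its exponentials are isometries which are close to perturbations of
   `1` of bounded rank.
7. For these the file `Pool/Agent/W5h45/BM/Ultra` (almost transitive norms with isometries
   which are nearly perturbations of `1` of bounded rank) applies.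
-/

set_option autoImplicit false

namespace Pool.Agent.Results.MP_cc72b1_an.SmallRieszPerturbations

/-- `E` is isometric to a real Hilbert space. -/
def IsHilbert (E : Type) [NormedAddCommGroup E] [NormedSpace ℝ E] : Prop :=
  ∃ (H : Type) (_ : NormedAddCommGroup H) (_ : InnerProductSpace ℝ H) (_ : CompleteSpace H),
    Nonempty (E ≃ₗᵢ[ℝ] H)

/-- The surjective linear isometries act transitively on the unit sphere. -/
def Transitive (E : Type) [NormedAddCommGroup E] [NormedSpace ℝ E] : Prop :=
  ∀ x y : E, ‖x‖ = 1 → ‖y‖ = 1 → ∃ T : E ≃ₗᵢ[ℝ] E, T x = y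

/-- The orbits of the surjective linear isometries are dense in the unit sphere. -/
def AlmostTransitive (E : Type) [NormedAddCommGroup E] [NormedSpace ℝ E] : Prop :=
  ∀ x y : E, ‖x‖ = 1 → ‖y‖ = 1 → ∀ ε : ℝ, 0 < ε → ∃ T : E ≃ₗᵢ[ℝ] E, ‖T x - y‖ < ε

/-- A surjective linear isometry as a bounded operator. -/
noncomputable def op {E : Type} [NormedAddCommGroup E] [NormedSpace ℝ E] (T : E ≃ₗᵢ[ℝ] E) : E →L[ℝ] E :=
  (T.toContinuousLinearEquiv : E →L[ℝ] E)

/-- `N` is quasinilpotent modulo the compact operators (a Riesz operator): for every `ε > 0` there are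
`n ≥ 1` and a compact operator `K` with `‖N ^ n - K‖ ≤ ε ^ n`.  Compact operators have this property. -/
def IsRiesz {E : Type} [NormedAddCommGroup E] [NormedSpace ℝ E] (N : E →L[ℝ] E) : Prop :=
  ∀ ε : ℝ, 0 < ε → ∃ n : ℕ, 0 < n ∧ ∃ K : E →L[ℝ] E, IsCompactOperator K ∧ ‖N ^ n - K‖ ≤ ε ^ n

/-- For every `ε > 0` there is an isometry `T ≠ 1` with `‖T - 1‖ ≤ ε` such that `T - 1` is a Riesz
operator. -/
def HasSmallRieszPerturbations (E : Type) [NormedAddCommGroup E] [NormedSpace ℝ E] : Prop :=
  ∀ ε : ℝ, 0 < ε → ∃ T : E ≃ₗᵢ[ℝ] E, T ≠ 1 ∧ IsRiesz (op T - 1) ∧ ‖op T - 1‖ ≤ ε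

/-- There is a compact operator `A ≠ 0` such that `exp (t A)` is an isometry for all real `t`. -/
def HasCompactSkewOperator (E : Type) [NormedAddCommGroup E] [NormedSpace ℝ E] : Prop :=
  ∃ A : E →L[ℝ] E, A ≠ 0 ∧ IsCompactOperator A ∧ ∀ (t : ℝ) (x : E), ‖NormedSpace.exp (t • A) x‖ = ‖x‖

section aux

variable {E : Type} [NormedAddCommGroup E] [NormedSpace ℝ E]

open Pool.Agent.W5h44.BMC

private theorem hilbert_of_par [CompleteSpace E]
    (h : ∀ x y : E, ‖x + y‖ ^ 2 + ‖x - y‖ ^ 2 = 2 * ‖x‖ ^ 2 + 2 * ‖y‖ ^ 2) : IsHilbert E := by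
  have key : ∀ x y : E,
      ‖x + y‖ * ‖x + y‖ + ‖x - y‖ * ‖x - y‖ = 2 * (‖x‖ * ‖x‖ + ‖y‖ * ‖y‖) := by
    intro x y
    nlinarith [h x y]
  exact ⟨E, inferInstance, InnerProductSpace.ofNorm ℝ key, inferInstance,
    ⟨LinearIsometryEquiv.refl ℝ E⟩⟩

private theorem dif_ne {T : E ≃ₗᵢ[ℝ] E} (hT : T ≠ 1) : dif T ≠ 0 := by
  intro h
  apply hT
  ext x
  exact sub_eq_zero.1 (congrArg (fun u : E →L[ℝ] E => u x) h)

private theorem ne_of_dif {T : E ≃ₗᵢ[ℝ] E} (hT : dif T ≠ 0) : T ≠ 1 := by
  rintro rfl
  apply hT
  ext x
  exact sub_self x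

private theorem transitive_of_hilbert (h : IsHilbert E) : Transitive E := by
  obtain ⟨H, i1, i2, i3, ⟨Φ⟩⟩ := h
  intro x y hx hy
  have h : ‖Φ x‖ = ‖Φ y‖ := by rw [Φ.norm_map, Φ.norm_map, hx, hy]
  refine ⟨(Φ.trans ((Submodule.span ℝ {Φ x - Φ y})ᗮ : Submodule ℝ H).reflection).trans Φ.symm, ?_⟩
  show Φ.symm (((Submodule.span ℝ {Φ x - Φ y})ᗮ : Submodule ℝ H).reflection (Φ x)) = y
  rw [Submodule.reflection_sub h, Φ.symm_apply_apply]

private theorem reflection_of_hilbert (h : IsHilbert E) (u : E) :
    ∃ T : E ≃ₗᵢ[ℝ] E, T u = -u ∧ ∀ x, T x - x ∈ Submodule.span ℝ ({u} : Set E) := by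
  obtain ⟨H, i1, i2, i3, ⟨Φ⟩⟩ := h
  set K : Submodule ℝ H := Submodule.span ℝ {Φ u} with hK
  refine ⟨(Φ.trans (Kᗮ : Submodule ℝ H).reflection).trans Φ.symm, ?_, fun x => ?_⟩
  · show Φ.symm ((Kᗮ : Submodule ℝ H).reflection (Φ u)) = -u
    have h1 : (Kᗮ : Submodule ℝ H).reflection (Φ u) = - Φ u :=
      Submodule.reflection_orthogonalComplement_singleton_eq_neg (Φ u)
    rw [h1, map_neg, Φ.symm_apply_apply]
  · show Φ.symm ((Kᗮ : Submodule ℝ H).reflection (Φ x)) - x ∈ _
    have h1 : (Kᗮ : Submodule ℝ H).reflection (Φ x) - Φ x ∈ K := by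
      rw [Submodule.reflection_orthogonal_apply, Submodule.reflection_apply]
      have h2 : (K.starProjection (Φ x)) ∈ K := Submodule.starProjection_apply_mem _ _
      have h3 : -((2 : ℕ) • K.starProjection (Φ x) - Φ x) - Φ x
          = (-2 : ℝ) • K.starProjection (Φ x) := by
        rw [two_smul, neg_smul, two_smul]
        abel
      rw [h3]
      exact K.smul_mem _ h2
    obtain ⟨c, hc⟩ := Submodule.mem_span_singleton.1 h1
    rw [Submodule.mem_span_singleton]
    refine ⟨c, ?_⟩
    apply Φ.injective
    rw [map_smul, hc, map_sub, Φ.apply_symm_apply]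

private theorem compact_of_reflection {T : E ≃ₗᵢ[ℝ] E} {u : E}
    (h : ∀ x, T x - x ∈ Submodule.span ℝ ({u} : Set E)) : IsCompactOperator (op T - 1 : E →L[ℝ] E) :=
  compact_of_fd _ _ h

end aux

/-- **Almost transitive norms with small Riesz perturbations of the identity.**  Let `E` be a real
Banach space of dimension at least two, of any density.  The following are equivalent: `E` is isometric
to a Hilbert space; the norm of `E` is almost transitive and for every `ε > 0` there is an isometry
`T ≠ 1` with `‖T - 1‖ ≤ ε` such that `T - 1` is a Riesz operator (for example compact); the norm is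
almost transitive and there is a compact operator `A ≠ 0` with isometries `exp (t A)`. -/
theorem result (E : Type) [NormedAddCommGroup E] [NormedSpace ℝ E] [CompleteSpace E]
    (hrk : 1 < Module.rank ℝ E) :
    List.TFAE [IsHilbert E,
      AlmostTransitive E ∧ HasSmallRieszPerturbations E,
      AlmostTransitive E ∧ HasCompactSkewOperator E] := by
  open Pool.Agent.W5h44.BMC in
  haveI : Nontrivial E := rank_pos_iff_nontrivial.1 (lt_trans zero_lt_one hrk)
  tfae_have 1 → 3 := by
    intro h
    refine ⟨at_of_tr (transitive_of_hilbert h), ?_⟩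
    obtain ⟨x, hx⟩ := exists_ne (0 : E)
    obtain ⟨y, hxy⟩ := exists_linearIndependent_pair_of_one_lt_rank hrk hx
    obtain ⟨H, i1, i2, i3, ⟨Φ⟩⟩ := h
    obtain ⟨a, ha0, hac, ha⟩ := exists_skew Φ hxy
    exact ⟨a, ha0, hac, ha.norm_exp⟩
  tfae_have 3 → 2 := by
    rintro ⟨h1, a, ha0, hac, ha⟩
    refine ⟨h1, fun ε hε => ?_⟩
    obtain ⟨T, hT1, hT2, hT3⟩ := small_of_skew (a := a) (fun t x => (ha t x).le) hac ha0 hε
    exact ⟨T, ne_of_dif hT1, essQN_of_compact hT2, hT3⟩
  tfae_have 2 → 1 := by
    rintro ⟨h1, h2⟩
    refine hilbert_of_par (par_at h1 fun ε hε => ?_)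
    obtain ⟨T, hT1, hT2, hT3⟩ := h2 ε hε
    exact ⟨T, dif_ne hT1, hT2, hT3⟩
  tfae_finish

end Pool.Agent.Results.MP_cc72b1_an.SmallRieszPerturbations
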